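import Pool.Agent.H535Z.AT.Main

set_option autoImplicit false

namespace Pool.Agent.Results.MP_3821a3_co.CharP

open Pool.Agent.H535Z.AT

/-- Over every field of positive characteristic with an element other than `0` and `1`, and for every
`K`, some finite hypergraph (without repeated edges, of edge density at most `1`) has a fully unbalanced
hypergraph polynomial whose Alon-Tarsi number exceeds `2 ⌈ed⌉ + 1 + K`. -/
theorem result (F : Type) [Field F] (p : ℕ) [CharP F p] (hp : p ≠ 0)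
    (hF : ∃ c : F, c ≠ 0 ∧ c ≠ 1) (K : ℕ) :
    ∃ (V E : Type) (_ : Fintype V) (_ : DecidableEq V) (_ : Fintype E) (e : E → Finset V)
      (a : E → V → F),
      Function.Injective e ∧ (∀ i, 2 ≤ (e i).card) ∧ (∀ i, ∀ v ∈ e i, a i v ≠ 0) ∧
      (∀ i, ∃ u ∈ e i, ∃ v ∈ e i, a i u ≠ a i v) ∧ edgeDensity e ≤ 1 ∧
      2 * ⌈edgeDensity e⌉₊ + 1 + K < alonTarsi (hyperPoly e a) := by
  obtain ⟨c, c0, c1⟩ := hF
  obtain ⟨r, N, e, a, h1, h2, h3, h4, h5, h6⟩ := main F p hp c c0 c1 (3 + K)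
  have h7 : ⌈edgeDensity e⌉₊ ≤ 1 := Nat.ceil_le.2 (by exact_mod_cast h5)
  exact ⟨_, _, inferInstance, inferInstance, inferInstance, e, a, h1, h2, h3, h4, h5, by omega⟩

end Pool.Agent.Results.MP_3821a3_co.CharP
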